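import Pool.Agent.helper1.FI.SpecQ2
import Pool.Agent.helper1.FI.BaseQ2

set_option autoImplicit false

namespace Pool.Agent.FI

open Pool.Agent.helper58.DC Pool.Agent.DI Pool.Agent.GR Pool.Agent.OB

theorem QA0 (hEQR : EQR_stmt) (hIDM : IDM_stmt) (hEIN : EIN_stmt) (hCVF : CVF_stmt) (hCCI : CCI_stmt)
    (hEXP : EXP_stmt) : QA0_stmt := by
  intro p M hS G _ _ D H hD hc hH θ hθ
  have hDC : D ≤ cz D := le_cz_of_com hc
  have hinf : H ⊓ cz D = cz D := inf_eq_right.2 hH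
  set S : Set (G → ℂ) := BR M H θ (cz D) with hSdef
  have hSsub : S ⊆ IrrOn (cz D) := fun ψ h => h.1
  obtain ⟨hCF, hcc, -, -⟩ := hIDM G (cz D) S hSsub
  obtain ⟨hCFe, hcce, -, -⟩ := hIDM G (cz D) (Bl M (cz D) θ) (BC_Bl M (cz D) θ).sub
  have hsub : ∀ ψ ∈ Bl M (cz D) θ, ψ ∈ S := fun ψ h => ⟨h.1, TRNb hH h.1.1 hθ.1 h.2⟩
  have h1 : EqmF M (rsk (cz D) (eBl M H θ)) (eS (cz D) S) := by
    refine EqmF.rsk_of_mem hS hCF.2 fun x hx => ?_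
    have h2 := hEQR p M hS G H H D le_rfl (hDC.trans hH) hD hc θ x (by rw [hinf]; exact hx)
    rw [hinf] at h2
    exact h2
  have h3 : cv (eBl M (cz D) θ) (eS (cz D) S) = eBl M (cz D) θ := by
    have h4 := (hCVF G).2.2.2.2.2.2.2.1 (cz D) (eBl M (cz D) θ) (eS (cz D) S) hCFe hCF
    have h5 := ((hCVF G).2.2.2.2.2.2.2.1 (cz D) (cv (eBl M (cz D) θ) (eS (cz D) S)) (eBl M (cz D) θ)
      h4.1 hCFe).2.2
    have h6 := hEXP G (cz D) _ h5 fun ψ hψ => by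
      obtain ⟨hl, hm, -⟩ := hCCI G (cz D) ψ hψ
      rw [(hl 1 _ _).2.1, hm _ _ hCFe hCF, hcc ψ hψ, hcce ψ hψ]
      by_cases hb : ψ ∈ Bl M (cz D) θ
      · rw [if_pos hb, if_pos (hsub ψ hb)]
        ring
      · rw [if_neg hb]
        ring
    exact sub_eq_zero.1 h6
  have h7 := EqmF.cvr hS (a := eBl M (cz D) θ) (eBl_int hEIN hS (cz D) θ) h1
  rwa [h3] at h7

end Pool.Agent.FI
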